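import Mathlib
import Pool.Agent.H576.CE.Stm

/-!
# Project CE (helper576): choice of the slow rate (helper252)
-/

set_option autoImplicit false

namespace Pool.Agent.H252.CEPARAM

open Finset Pool.Agent.H576.CE

/-- exponential against polynomial -/
theorem poly_exp (A κ : ℝ) (hA : 0 ≤ A) (hκ : 0 < κ) :
    ∃ B : ℝ, 0 ≤ B ∧ ∀ j : ℕ, A ^ j ≤ B * Real.exp (κ * 2 ^ j) := by
  obtain ⟨k, hk⟩ := pow_unbounded_of_one_lt A (one_lt_two : (1 : ℝ) < 2)
  refine ⟨(k.factorial : ℝ) / κ ^ k, by positivity, fun j => ?_⟩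
  have h1 := Real.pow_div_factorial_le_exp (κ * 2 ^ j) (by positivity) k
  have h2 : A ^ j ≤ ((2 : ℝ) ^ j) ^ k := by
    rw [← pow_mul, mul_comm j k, pow_mul]
    exact pow_le_pow_left₀ hA hk.le j
  refine h2.trans ?_
  rw [div_le_iff₀ (by positivity), mul_pow] at h1
  rw [div_mul_eq_mul_div, le_div_iff₀ (by positivity)]
  linarith

theorem ce_param : S_PARAM := by
  intro b κ c0 M p hb hb1 hκ hc0 hM
  obtain ⟨β, hβ⟩ : ∃ β : ℝ, β = -Real.log b := ⟨_, rfl⟩
  have hβ0 : 0 < β := by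
    rw [hβ]
    exact neg_pos.2 (Real.log_neg hb hb1)
  have hbe : b = Real.exp (-β) := by
    rw [hβ, neg_neg, Real.exp_log hb]
  have hM1 : (1 : ℝ) ≤ M := by exact_mod_cast hM
  obtain ⟨lM, hlM⟩ : ∃ lM : ℝ, lM = Real.log M := ⟨_, rfl⟩
  have hlM0 : 0 ≤ lM := by
    rw [hlM]
    exact Real.log_nonneg hM1
  have hMe : (M : ℝ) = Real.exp lM := by
    rw [hlM, Real.exp_log (by linarith)]
  obtain ⟨e', he'⟩ := exists_nat_gt (8 * (2 * lM + β) / κ)
  obtain ⟨e, he⟩ : ∃ e : ℕ, e = e' + 1 := ⟨_, rfl⟩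
  have he1 : 1 ≤ e := by omega
  have he0 : (0 : ℝ) < e := by exact_mod_cast he1
  have heκ : 8 * (2 * lM + β) ≤ κ * e := by
    rw [div_lt_iff₀ hκ] at he'
    have : (e : ℝ) = e' + 1 := by rw [he]; push_cast; ring
    rw [this]
    nlinarith
  obtain ⟨B, hB0, hB⟩ := poly_exp (16 * (M : ℝ) ^ p) (κ / 16) (by positivity) (by positivity)
  have h1b0 : ∀ n : ℕ, (1 / Real.exp (-(β / (8 * e)))) ^ n = Real.exp (β / (8 * e) * n) := by
    intro n
    rw [Real.exp_neg, one_div, inv_inv, ← Real.exp_nat_mul]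
    congr 1
    ring
  refine ⟨e, Real.exp (-(β / (8 * e))), M * B * Real.sqrt (Real.exp κ / c0), he1, Real.exp_pos _,
    ?_, by positivity, ?_, ?_, ?_⟩
  · rw [Real.exp_lt_one_iff]
    have : 0 < β / (8 * e) := by positivity
    linarith
  · rw [hbe, ← Real.exp_nat_mul, Real.exp_le_exp]
    push_cast
    have h2 : β / (8 * e) ≤ β / 8 := by
      refine div_le_div_of_nonneg_left hβ0.le (by norm_num) ?_
      have : (1 : ℝ) ≤ e := by exact_mod_cast he1
      linarith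
    linarith
  · intro j
    rw [h1b0, hbe, ← Real.exp_nat_mul, ← Real.exp_add, Real.exp_le_one_iff]
    have h3 : (2 : ℝ) ^ j ≤ e * (((2 ^ j / e : ℕ) : ℝ) + 1) := by
      exact_mod_cast (Nat.lt_mul_div_succ (2 ^ j) he1).le
    push_cast
    have h4 : β / (8 * e) * 2 ^ (j + 3) = β * (2 ^ j / e) := by
      field_simp
      ring
    rw [h4]
    have h5 : (2 : ℝ) ^ j / e ≤ ((2 ^ j / e : ℕ) : ℝ) + 1 := by
      rw [div_le_iff₀ he0]
      linarith
    have h6 := mul_le_mul_of_nonneg_left h5 hβ0.le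
    linarith
  · intro j
    obtain ⟨m, hm⟩ : ∃ m : ℕ, m = 2 ^ j / e := ⟨_, rfl⟩
    rw [← hm, h1b0]
    have hm2 : (m : ℝ) ≤ 2 ^ j / e := by
      rw [hm]
      have := @Nat.cast_div_le ℝ _ _ _ (2 ^ j) e
      push_cast at this ⊢
      exact this
    have h7 : (M : ℝ) ^ m ≤ Real.exp (lM * (2 ^ j / e)) := by
      rw [hMe, ← Real.exp_nat_mul, Real.exp_le_exp]
      have := mul_le_mul_of_nonneg_left hm2 hlM0
      linarith
    have h8 : Real.exp (β / (8 * e) * ((2 ^ (j + 2) : ℕ) : ℝ)) = Real.exp (β / 2 * (2 ^ j / e)) := by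
      congr 1
      push_cast
      field_simp
      ring
    have h9 : Real.exp (lM * (2 ^ j / e)) * Real.exp (β / 2 * (2 ^ j / e)) ≤
        Real.exp (κ / 16 * 2 ^ j) := by
      rw [← Real.exp_add, Real.exp_le_exp]
      have h10 : lM * (2 ^ j / e) + β / 2 * (2 ^ j / e) = (8 * (2 * lM + β)) * 2 ^ j / (16 * e) := by
        field_simp
        ring
      rw [h10, div_le_iff₀ (by positivity)]
      have h11 := mul_le_mul_of_nonneg_right heκ (by positivity : (0 : ℝ) ≤ 2 ^ j)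
      linarith
    have hX : (16 : ℝ) ^ j * (M : ℝ) ^ (p * j + (m + 1)) *
        Real.exp (β / (8 * e) * ((2 ^ (j + 2) : ℕ) : ℝ)) ≤ M * B * Real.exp (κ / 8 * 2 ^ j) := by
      rw [h8]
      calc (16 : ℝ) ^ j * (M : ℝ) ^ (p * j + (m + 1)) * Real.exp (β / 2 * (2 ^ j / e))
          = (16 * (M : ℝ) ^ p) ^ j * M * ((M : ℝ) ^ m * Real.exp (β / 2 * (2 ^ j / e))) := by
            rw [mul_pow, ← pow_mul, pow_add, pow_add, pow_one]
            ring
        _ ≤ (B * Real.exp (κ / 16 * 2 ^ j)) * M *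
            (Real.exp (lM * (2 ^ j / e)) * Real.exp (β / 2 * (2 ^ j / e))) := by
            refine mul_le_mul (mul_le_mul_of_nonneg_right (hB j) (by linarith))
              (mul_le_mul_of_nonneg_right h7 (Real.exp_pos _).le) (by positivity) (by positivity)
        _ ≤ (B * Real.exp (κ / 16 * 2 ^ j)) * M * Real.exp (κ / 16 * 2 ^ j) :=
            mul_le_mul_of_nonneg_left h9 (by positivity)
        _ = M * B * (Real.exp (κ / 16 * 2 ^ j) * Real.exp (κ / 16 * 2 ^ j)) := by ring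
        _ = M * B * Real.exp (κ / 8 * 2 ^ j) := by
            rw [← Real.exp_add]
            congr 2
            ring
    have h12 : Real.exp (κ / 8 * 2 ^ j) ^ 2 ≤ Real.exp κ * Real.exp (κ * ((2 ^ j / 4 : ℕ) : ℝ)) := by
      rw [← Real.exp_nat_mul, ← Real.exp_add, Real.exp_le_exp]
      have h13 : (2 : ℕ) ^ j ≤ 4 * (2 ^ j / 4 + 1) := by omega
      have h14 : (2 : ℝ) ^ j ≤ 4 * (((2 ^ j / 4 : ℕ) : ℝ) + 1) := by exact_mod_cast h13
      have h15 := mul_le_mul_of_nonneg_left h14 hκ.le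
      push_cast at h15 ⊢
      linarith
    calc ((16 : ℝ) ^ j * (M : ℝ) ^ (p * j + (m + 1)) *
          Real.exp (β / (8 * e) * ((2 ^ (j + 2) : ℕ) : ℝ))) ^ 2
        ≤ (M * B * Real.exp (κ / 8 * 2 ^ j)) ^ 2 := pow_le_pow_left₀ (by positivity) hX 2
      _ = (M * B) ^ 2 * Real.exp (κ / 8 * 2 ^ j) ^ 2 := by ring
      _ ≤ (M * B) ^ 2 * (Real.exp κ * Real.exp (κ * ((2 ^ j / 4 : ℕ) : ℝ))) :=
          mul_le_mul_of_nonneg_left h12 (by positivity)
      _ = (M * B * Real.sqrt (Real.exp κ / c0)) ^ 2 *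
          (c0 * Real.exp (κ * ((2 ^ j / 4 : ℕ) : ℝ))) := by
          rw [mul_pow (M * B) (Real.sqrt _), Real.sq_sqrt (by positivity)]
          field_simp

end Pool.Agent.H252.CEPARAM
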